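import Mathlib

/-!
Labels on the vertices of a finite tree.
-/

set_option autoImplicit false

namespace Pool.Agent.Helper61.TL

/-- A finite connected graph with one edge less than vertices: all the conditions given by the
edges can be satisfied, with any value at one vertex. -/
theorem exists_labels {V C X : Type*} [Fintype V] [Fintype C] (src dst : C → V) (g : C → X ≃ X)
    (hconn : ∀ W : Set V, W.Nonempty → (∀ c, src c ∈ W ↔ dst c ∈ W) → W = Set.univ)
    (hcard : Fintype.card C + 1 = Fintype.card V) (v₀ : V) (x₀ : X) :
    ∃ x : V → X, x v₀ = x₀ ∧ ∀ c, x (dst c) = g c (x (src c)) := by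
  classical
  have key : ∀ n : ℕ, n + 1 ≤ Fintype.card V → ∃ (W : Finset V) (D : Finset C) (x : V → X),
      v₀ ∈ W ∧ W.card = n + 1 ∧ D.card = n ∧ x v₀ = x₀ ∧
        ∀ c ∈ D, src c ∈ W ∧ dst c ∈ W ∧ x (dst c) = g c (x (src c)) := by
    intro n
    induction n with
    | zero =>
      intro _
      exact ⟨{v₀}, ∅, fun _ => x₀, by simp, by simp, by simp, rfl, by simp⟩
    | succ n ih =>
      intro hn
      obtain ⟨W, D, x, h0, hW, hD, hx, hc⟩ := ih (by omega)
      have hne : (W : Set V) ≠ Set.univ := by
        intro h
        have : W = Finset.univ := by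
          ext v
          have : v ∈ (W : Set V) := by rw [h]; trivial
          simpa using this
        rw [this, Finset.card_univ] at hW
        omega
      have hex : ∃ c, ¬ (src c ∈ W ↔ dst c ∈ W) := by
        by_contra hno
        push Not at hno
        exact hne (hconn _ ⟨v₀, h0⟩ fun c => by simpa using hno c)
      obtain ⟨c, hcc⟩ := hex
      by_cases hs : src c ∈ W
      · have hd : dst c ∉ W := fun h => hcc ⟨fun _ => h, fun _ => hs⟩
        have hcD : c ∉ D := fun h => hd (hc c h).2.1
        refine ⟨insert (dst c) W, insert c D, Function.update x (dst c) (g c (x (src c))),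
          Finset.mem_insert_of_mem h0, ?_, ?_, ?_, ?_⟩
        · rw [Finset.card_insert_of_notMem hd, hW]
        · rw [Finset.card_insert_of_notMem hcD, hD]
        · rw [Function.update_of_ne (ne_of_mem_of_not_mem h0 hd), hx]
        · intro e he
          rcases Finset.mem_insert.mp he with rfl | he
          · refine ⟨Finset.mem_insert_of_mem hs, Finset.mem_insert_self _ _, ?_⟩
            rw [Function.update_self, Function.update_of_ne (ne_of_mem_of_not_mem hs hd)]
          · obtain ⟨h1, h2, h3⟩ := hc e he
            refine ⟨Finset.mem_insert_of_mem h1, Finset.mem_insert_of_mem h2, ?_⟩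
            rw [Function.update_of_ne (ne_of_mem_of_not_mem h2 hd),
              Function.update_of_ne (ne_of_mem_of_not_mem h1 hd), h3]
      · have hd : dst c ∈ W := by
          by_contra h
          exact hcc ⟨fun h' => absurd h' hs, fun h' => absurd h' h⟩
        have hcD : c ∉ D := fun h => hs (hc c h).1
        refine ⟨insert (src c) W, insert c D, Function.update x (src c) ((g c).symm (x (dst c))),
          Finset.mem_insert_of_mem h0, ?_, ?_, ?_, ?_⟩
        · rw [Finset.card_insert_of_notMem hs, hW]
        · rw [Finset.card_insert_of_notMem hcD, hD]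
        · rw [Function.update_of_ne (ne_of_mem_of_not_mem h0 hs), hx]
        · intro e he
          rcases Finset.mem_insert.mp he with rfl | he
          · refine ⟨Finset.mem_insert_self _ _, Finset.mem_insert_of_mem hd, ?_⟩
            rw [Function.update_self, Function.update_of_ne (ne_of_mem_of_not_mem hd hs),
              Equiv.apply_symm_apply]
          · obtain ⟨h1, h2, h3⟩ := hc e he
            refine ⟨Finset.mem_insert_of_mem h1, Finset.mem_insert_of_mem h2, ?_⟩
            rw [Function.update_of_ne (ne_of_mem_of_not_mem h2 hs),
              Function.update_of_ne (ne_of_mem_of_not_mem h1 hs), h3]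
  obtain ⟨W, D, x, -, -, hD, hx, hc⟩ := key (Fintype.card C) (by omega)
  have : D = Finset.univ := Finset.eq_univ_of_card D hD
  exact ⟨x, hx, fun c => (hc c (by rw [this]; exact Finset.mem_univ c)).2.2⟩

end Pool.Agent.Helper61.TL
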