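import Mathlib
import Pool.Agent.Helper61.TL.Tree

/-!
Dissections of a rectangle into squares, the sides of which carry automorphisms of a linear
order.
-/

set_option autoImplicit false

namespace Pool.Agent.Helper61.TL

/-- The unit square `(i, j)` belongs to the square with the lower left corner `(a, b)` and the
side `c`. -/
def InSq (a b c i j : ℕ) : Prop := a ≤ i ∧ i < a + c ∧ b ≤ j ∧ j < b + c

/-- The `k × h` rectangle is dissected into squares `e`; the lower and the upper side of `e`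
carry the automorphisms `lo e`, `up e`, the left and the right side carry `lt e`, `rt e`. -/
structure Tiling (X : Type*) [LinearOrder X] (h k : ℕ) (A M : X ≃o X) (ι : Type*) where
  al : ι → ℕ
  yt : ι → ℕ
  sz : ι → ℕ
  pos : ∀ e, 0 < sz e
  colb : ∀ e, al e + sz e ≤ k
  rowb : ∀ e, yt e + sz e ≤ h
  cover : ∀ i < k, ∀ j < h, ∃ e, InSq (al e) (yt e) (sz e) i j
  disj : ∀ e e' i j, InSq (al e) (yt e) (sz e) i j → InSq (al e') (yt e') (sz e') i j → e = e'
  lo : ι → X ≃o X
  up : ι → X ≃o X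
  lt : ι → X ≃o X
  rt : ι → X ≃o X
  bot : ∀ e, yt e = 0 → ∀ z, lo e z = z
  top : ∀ e, yt e + sz e = h → ∀ z, up e z = A z
  vert : ∀ e e' i, al e ≤ i → i < al e + sz e → al e' ≤ i → i < al e' + sz e' →
    yt e + sz e = yt e' → ∀ z, up e z = lo e' z
  left : ∀ e, al e = 0 → ∀ z, lt e z ≤ z
  right : ∀ e, al e + sz e = k → ∀ z, M z ≤ rt e z
  horz : ∀ e e' j, yt e ≤ j → j < yt e + sz e → yt e' ≤ j → j < yt e' + sz e' →
    al e + sz e = al e' → ∀ z, lt e' z ≤ rt e z
  cell : ∀ e x y, lt e y ≤ lo e x → rt e y ≤ up e x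

namespace Tiling

variable {X : Type*} [LinearOrder X] {h k : ℕ} {A M : X ≃o X} {ι : Type*} (T : Tiling X h k A M ι)
include T

/-- The square below. -/
lemma below {e : ι} {i : ℕ} (h1 : T.al e ≤ i) (h2 : i < T.al e + T.sz e) (h3 : 0 < T.yt e) :
    ∃ e', T.al e' ≤ i ∧ i < T.al e' + T.sz e' ∧ T.yt e' + T.sz e' = T.yt e := by
  have hc := T.colb e
  have hr := T.rowb e
  have hp := T.pos e
  obtain ⟨e', h4, h5, h6, h7⟩ := T.cover i (by omega) (T.yt e - 1) (by omega)
  refine ⟨e', h4, h5, ?_⟩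
  by_contra hne
  have h8 : T.yt e < T.yt e' + T.sz e' := by omega
  have h9 : e = e' := T.disj e e' i (T.yt e) ⟨h1, h2, le_rfl, by omega⟩ ⟨h4, h5, by omega, h8⟩
  subst h9
  omega

/-- The square on the right side. -/
lemma next {e : ι} {j : ℕ} (h1 : T.yt e ≤ j) (h2 : j < T.yt e + T.sz e)
    (h3 : T.al e + T.sz e < k) :
    ∃ e', T.yt e' ≤ j ∧ j < T.yt e' + T.sz e' ∧ T.al e + T.sz e = T.al e' := by
  have hr := T.rowb e
  have hp := T.pos e
  obtain ⟨e', h4, h5, h6, h7⟩ := T.cover (T.al e + T.sz e) h3 j (by omega)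
  refine ⟨e', h6, h7, ?_⟩
  by_contra hne
  have h8 : T.al e' < T.al e + T.sz e := by omega
  have h9 : e = e' := T.disj e e' (T.al e + T.sz e - 1) j ⟨by omega, by omega, h1, h2⟩
    ⟨by omega, by omega, h6, h7⟩
  subst h9
  omega

/-- The antidiagonal from the lower left half of a square downwards. -/
lemma chain (x y : ℕ → X)
    (tie : ∀ e c, c < T.sz e → T.lo e (x (T.al e + c)) = T.lt e (y (T.yt e + c))) :
    ∀ n e c, T.yt e = n → c < T.sz e →
      (if T.al e + c + T.yt e < k then x (T.al e + c + T.yt e)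
        else M (y (T.al e + c + T.yt e - k))) ≤ T.lo e (x (T.al e + c)) := by
  intro n
  induction n using Nat.strong_induction_on with
  | _ n ih =>
    intro e c hn hc
    have hcol := T.colb e
    rcases Nat.eq_zero_or_pos (T.yt e) with h0 | h0
    · rw [h0, Nat.add_zero, if_pos (by omega), T.bot e h0]
    · obtain ⟨e₂, h1, h2, h3⟩ := T.below (e := e) (i := T.al e + c) (by omega) (by omega) h0
      obtain ⟨c₂, hc₂⟩ : ∃ c₂, T.al e + c = T.al e₂ + c₂ := ⟨T.al e + c - T.al e₂, by omega⟩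
      have hc2 : c₂ < T.sz e₂ := by omega
      have h4 : T.rt e₂ (y (T.yt e₂ + c₂)) ≤ T.up e₂ (x (T.al e₂ + c₂)) :=
        T.cell e₂ _ _ (tie e₂ c₂ hc2).ge
      have h5 : T.up e₂ (x (T.al e + c)) = T.lo e (x (T.al e + c)) :=
        T.vert e₂ e (T.al e + c) h1 h2 (by omega) (by omega) h3 _
      rw [← h5, hc₂]
      refine le_trans ?_ h4
      rcases Nat.lt_or_ge (T.al e₂ + T.sz e₂) k with h6 | h6
      · obtain ⟨e₃, h7, h8, h9⟩ := T.next (e := e₂) (j := T.yt e₂ + c₂) (by omega) (by omega) h6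
        obtain ⟨c₃, hc₃⟩ : ∃ c₃, T.yt e₂ + c₂ = T.yt e₃ + c₃ :=
          ⟨T.yt e₂ + c₂ - T.yt e₃, by omega⟩
        have hc3 : c₃ < T.sz e₃ := by omega
        have h10 := T.horz e₂ e₃ (T.yt e₂ + c₂) (by omega) (by omega) h7 h8 h9 (y (T.yt e₂ + c₂))
        refine le_trans ?_ h10
        have h11 := ih (T.yt e₃) (by omega) e₃ c₃ rfl hc3
        rw [tie e₃ c₃ hc3, ← hc₃] at h11
        refine le_trans (le_of_eq ?_) h11
        have h12 : T.al e₂ + c₂ + T.yt e = T.al e₃ + c₃ + T.yt e₃ := by omega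
        rw [h12]
      · have h7 : T.al e₂ + T.sz e₂ = k := le_antisymm (T.colb e₂) h6
        rw [if_neg (by omega)]
        have h8 : T.al e₂ + c₂ + T.yt e - k = T.yt e₂ + c₂ := by omega
        rw [h8]
        exact T.right e₂ h7 _

/-- The same for a set of labels which is closed under the cells. -/
lemma chain_mem (P Q : ℕ → Prop)
    (tie : ∀ e c, c < T.sz e → (P (T.al e + c) ↔ Q (T.yt e + c))) :
    ∀ n e c, T.yt e = n → c < T.sz e →
      ((if T.al e + c + T.yt e < k then P (T.al e + c + T.yt e)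
        else Q (T.al e + c + T.yt e - k)) ↔ P (T.al e + c)) := by
  intro n
  induction n using Nat.strong_induction_on with
  | _ n ih =>
    intro e c hn hc
    have hcol := T.colb e
    rcases Nat.eq_zero_or_pos (T.yt e) with h0 | h0
    · rw [h0, Nat.add_zero, if_pos (by omega)]
    · obtain ⟨e₂, h1, h2, h3⟩ := T.below (e := e) (i := T.al e + c) (by omega) (by omega) h0
      obtain ⟨c₂, hc₂⟩ : ∃ c₂, T.al e + c = T.al e₂ + c₂ := ⟨T.al e + c - T.al e₂, by omega⟩
      have hc2 : c₂ < T.sz e₂ := by omega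
      rw [hc₂, tie e₂ c₂ hc2]
      rcases Nat.lt_or_ge (T.al e₂ + T.sz e₂) k with h6 | h6
      · obtain ⟨e₃, h7, h8, h9⟩ := T.next (e := e₂) (j := T.yt e₂ + c₂) (by omega) (by omega) h6
        obtain ⟨c₃, hc₃⟩ : ∃ c₃, T.yt e₂ + c₂ = T.yt e₃ + c₃ :=
          ⟨T.yt e₂ + c₂ - T.yt e₃, by omega⟩
        have hc3 : c₃ < T.sz e₃ := by omega
        have h11 := ih (T.yt e₃) (by omega) e₃ c₃ rfl hc3
        have h12 : T.al e₂ + c₂ + T.yt e = T.al e₃ + c₃ + T.yt e₃ := by omega
        rw [hc₃, ← tie e₃ c₃ hc3, h12]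
        exact h11
      · have h7 : T.al e₂ + T.sz e₂ = k := le_antisymm (T.colb e₂) h6
        have h8 : T.al e₂ + c₂ + T.yt e - k = T.yt e₂ + c₂ := by omega
        rw [if_neg (by omega), h8]

/-- The end of the antidiagonal `s` is at most its start. -/
lemma ends (x y : ℕ → X)
    (tie : ∀ e c, c < T.sz e → T.lo e (x (T.al e + c)) = T.lt e (y (T.yt e + c)))
    (hk : 0 < k) (hh : 0 < h) {s : ℕ} (hs : s < h + k) :
    (if s < k then x s else M (y (s - k))) ≤ if s < h then y s else A (x (s - h)) := by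
  rcases Nat.lt_or_ge s h with h1 | h1
  · rw [if_pos h1]
    obtain ⟨e, h2, h3, h4, h5⟩ := T.cover 0 hk s h1
    have h6 : T.al e = 0 := by omega
    obtain ⟨c, hc⟩ : ∃ c, s = T.yt e + c := ⟨s - T.yt e, by omega⟩
    have h7 := T.chain x y tie _ e c rfl (by omega)
    rw [tie e c (by omega), ← hc, h6] at h7
    have h8 : 0 + c + T.yt e = s := by omega
    rw [h8] at h7
    exact h7.trans (T.left e h6 _)
  · rw [if_neg (by omega : ¬ s < h)]
    obtain ⟨e, h2, h3, h4, h5⟩ := T.cover (s - h) (by omega) (h - 1) (by omega)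
    have h6 : T.yt e + T.sz e = h := by
      have := T.rowb e
      omega
    obtain ⟨c, hc⟩ : ∃ c, s - h = T.al e + c := ⟨s - h - T.al e, by omega⟩
    have hc2 : c < T.sz e := by omega
    have h7 : T.rt e (y (T.yt e + c)) ≤ T.up e (x (T.al e + c)) :=
      T.cell e _ _ (tie e c hc2).ge
    rw [T.top e h6, ← hc] at h7
    refine le_trans ?_ h7
    rcases Nat.lt_or_ge (T.al e + T.sz e) k with h8 | h8
    · obtain ⟨e₃, h9, h10, h11⟩ := T.next (e := e) (j := T.yt e + c) (by omega) (by omega) h8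
      obtain ⟨c₃, hc₃⟩ : ∃ c₃, T.yt e + c = T.yt e₃ + c₃ := ⟨T.yt e + c - T.yt e₃, by omega⟩
      have hc3 : c₃ < T.sz e₃ := by omega
      refine le_trans ?_ (T.horz e e₃ (T.yt e + c) (by omega) (by omega) h9 h10 h11 _)
      have h12 := T.chain x y tie _ e₃ c₃ rfl hc3
      rw [tie e₃ c₃ hc3, ← hc₃] at h12
      have h13 : T.al e₃ + c₃ + T.yt e₃ = s := by omega
      rw [h13] at h12
      exact h12
    · have h9 : T.al e + T.sz e = k := le_antisymm (T.colb e) h8
      have h10 : s - k = T.yt e + c := by omega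
      rw [if_neg (by omega), h10]
      exact T.right e h9 _

/-- The same for a set of labels which is closed under the cells. -/
lemma ends_mem (P Q : ℕ → Prop)
    (tie : ∀ e c, c < T.sz e → (P (T.al e + c) ↔ Q (T.yt e + c)))
    (hk : 0 < k) (hh : 0 < h) {s : ℕ} (hs : s < h + k) :
    (if s < k then P s else Q (s - k)) ↔ if s < h then Q s else P (s - h) := by
  rcases Nat.lt_or_ge s h with h1 | h1
  · rw [if_pos h1]
    obtain ⟨e, h2, h3, h4, h5⟩ := T.cover 0 hk s h1
    have h6 : T.al e = 0 := by omega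
    obtain ⟨c, hc⟩ : ∃ c, s = T.yt e + c := ⟨s - T.yt e, by omega⟩
    have h7 := T.chain_mem P Q tie _ e c rfl (by omega)
    rw [tie e c (by omega), ← hc, h6] at h7
    have h8 : 0 + c + T.yt e = s := by omega
    rw [h8] at h7
    exact h7
  · rw [if_neg (by omega : ¬ s < h)]
    obtain ⟨e, h2, h3, h4, h5⟩ := T.cover (s - h) (by omega) (h - 1) (by omega)
    have h6 : T.yt e + T.sz e = h := by
      have := T.rowb e
      omega
    obtain ⟨c, hc⟩ : ∃ c, s - h = T.al e + c := ⟨s - h - T.al e, by omega⟩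
    have hc2 : c < T.sz e := by omega
    rw [hc, tie e c hc2]
    rcases Nat.lt_or_ge (T.al e + T.sz e) k with h8 | h8
    · obtain ⟨e₃, h9, h10, h11⟩ := T.next (e := e) (j := T.yt e + c) (by omega) (by omega) h8
      obtain ⟨c₃, hc₃⟩ : ∃ c₃, T.yt e + c = T.yt e₃ + c₃ := ⟨T.yt e + c - T.yt e₃, by omega⟩
      have hc3 : c₃ < T.sz e₃ := by omega
      have h12 := T.chain_mem P Q tie _ e₃ c₃ rfl hc3
      rw [hc₃, ← tie e₃ c₃ hc3]
      have h13 : T.al e₃ + c₃ + T.yt e₃ = s := by omega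
      rw [h13] at h12
      exact h12
    · have h9 : T.al e + T.sz e = k := le_antisymm (T.colb e) h8
      have h10 : s - k = T.yt e + c := by omega
      rw [if_neg (by omega), h10]

end Tiling

end Pool.Agent.Helper61.TL
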