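import Mathlib
import Pool.Agent.Helper42.Th.Defs

/-!
Diagrams with one negative crossing ball, the edges of which dissect a rectangle.
-/

set_option autoImplicit false

namespace Pool.Agent.Helper61.TL

open Pool.Agent.Helper42.Th

variable {E : Type} {G : Type*} [Group G]

/-- The dart `d` starts at the start of `δ`, or it ends at the end of `δ`, or its outer side is a
side of `δ`. -/
def Near (Γ : CMap E) (δ d : E) : Prop :=
  Γ.rot.SameCycle δ d ∨ Γ.rot.SameCycle (Γ.flip δ) (Γ.flip d) ∨
    Γ.dual.rot.SameCycle δ (Γ.flip d) ∨ Γ.dual.rot.SameCycle (Γ.flip δ) d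

/-- The crossing of `d` is a twist of `ℓ` crossings, or `d` is near `δ` and the slope of its
filling is at least `1 / ℓ`. -/
def Twist {Γ : CMap E} (L : Lab G Γ) (δ d : E) (ℓ : ℕ) : Prop :=
  L.M d ^ ℓ = L.D d ∨ (Near Γ δ d ∧ L.Within d ℓ)

/-- The edges of the diagram without the edge of `δ` dissect a rectangle of width `k` and height
`h`: `H` is the height of the vertices and `A` is the position of the faces.  An edge `d` the
faces of which have different positions is a rectangle, the height of which is `ℓ` times its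
width, and its slope is `1 / ℓ` (at least `1 / ℓ` if it is near `δ`).  If the faces of `d` have
the same position and its vertices have different heights, then `d` is near `δ`. -/
structure Tiles {Γ : CMap E} (L : Lab G Γ) (δ : E) (h k : ℕ) (H A : E → ℕ) : Prop where
  H_rot : ∀ d, H (Γ.rot d) = H d
  A_rot : ∀ d, A (Γ.flip (Γ.rot d)) = A d
  H_lo : H (Γ.flip δ) = 0
  H_hi : H δ = h
  A_lo : A δ = 0
  A_hi : A (Γ.flip δ) = k
  H_le : ∀ d, H d ≤ h
  A_le : ∀ d, A d ≤ k
  tile : ∀ d, d ≠ δ → d ≠ Γ.flip δ → A (Γ.flip d) < A d →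
    ∃ ℓ, 0 < ℓ ∧ H d = H (Γ.flip d) + ℓ * (A d - A (Γ.flip d)) ∧ Twist L δ d ℓ
  wall : ∀ d, d ≠ δ → d ≠ Γ.flip δ → A (Γ.flip d) = A d → H (Γ.flip d) < H d → Near Γ δ d

/-- The sum of the heights of the rectangles. -/
noncomputable def total (Γ : CMap E) (δ : E) (H A : E → ℕ) : ℕ :=
  ∑ᶠ d ∈ {d | d ≠ Γ.flip δ ∧ A (Γ.flip d) < A d}, (H d - H (Γ.flip d))

end Pool.Agent.Helper61.TL
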