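import Mathlib
import Pool.Agent.Helper42.T3.Top

/-!
One negative crossing ball the slope of which is bounded by a fraction.
-/

set_option autoImplicit false

namespace Pool.Agent.Helper61.TL

open Pool.Agent.Helper42.Th
open Pool.Agent.Helper31.OrderAct
open Pool.Agent.Helper71.Rot
open Pool.Agent.Helper71.Tree

/-- Powers of commuting automorphisms. -/
lemma pow_lt_pow_of_comm {Ω : Type*} [LinearOrder Ω] {a b : Ω ≃o Ω} (hc : a * b = b * a) {z : Ω}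
    (h : a z < b z) {n : ℕ} (hn : 0 < n) : (a ^ n) z < (b ^ n) z := by
  induction n with
  | zero => omega
  | succ n ih =>
    have h1 : (a ^ n) (b z) = b ((a ^ n) z) := by
      have h2 : Commute (a ^ n) b := (show Commute a b from hc).pow_left n
      rw [← RelIso.mul_apply, h2.eq, RelIso.mul_apply]
    have h2 : (a ^ n) z ≤ (b ^ n) z := by
      rcases Nat.eq_zero_or_pos n with rfl | hn
      · simp
      · exact (ih hn).le
    calc (a ^ (n + 1)) z = (a ^ n) (a z) := by rw [pow_succ, RelIso.mul_apply]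
      _ < (a ^ n) (b z) := (a ^ n).strictMono h
      _ = b ((a ^ n) z) := h1
      _ ≤ b ((b ^ n) z) := b.monotone h2
      _ = (b ^ (n + 1)) z := by rw [pow_succ', RelIso.mul_apply]

universe u

section Main

variable {E : Type} {Γ : CMap E} {G : Type u} [Group G] (L : Lab G Γ) (δ : E)
  (P : Set E) (F : E → Set G) (F₀ : Set G) (h k : ℕ) (s : Bool)

lemma comm_ab {Ω : Type*} [LinearOrder Ω] (ρ : G →* (Ω ≃o Ω)) :
    ρ (L.D δ) * ρ (L.M δ)⁻¹ = ρ (L.M δ)⁻¹ * ρ (L.D δ) := by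
  have hc : Commute (L.M δ) (L.D δ) := comm_MD L δ
  rw [← map_mul, ← map_mul]
  congr 1
  exact hc.symm.inv_right.eq

lemma map_slope {Ω : Type*} [LinearOrder Ω] (ρ : G →* (Ω ≃o Ω)) :
    ρ (L.D δ ^ k * L.M δ ^ h) = ρ (L.D δ) ^ k * (ρ (L.M δ)⁻¹ ^ h)⁻¹ := by
  rw [map_mul, map_pow, map_pow, map_inv, inv_pow, inv_inv]

lemma comm_slope {Ω : Type*} [LinearOrder Ω] (ρ : G →* (Ω ≃o Ω)) :
    ρ (L.D δ ^ k * L.M δ ^ h) * ρ (L.M δ)⁻¹ = ρ (L.M δ)⁻¹ * ρ (L.D δ ^ k * L.M δ ^ h) := by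
  rw [map_slope]
  have h1 : Commute (ρ (L.D δ)) (ρ (L.M δ)⁻¹) := comm_ab L δ ρ
  exact ((h1.pow_left k).mul_left ((Commute.refl (ρ (L.M δ)⁻¹)).pow_left h).inv_left).eq

variable {P F F₀ h k s}

/-- The slope of the negative edge in the action. -/
lemma slope_up (hneg : Fill s 0 (L.D δ ^ k * L.M δ ^ h) (L.M δ)⁻¹ F₀)
    {Ω : Type*} [CompleteLinearOrder Ω] (ρ : G →* (Ω ≃o Ω)) {z : Ω}
    (hz : z ≤ ρ (L.M δ)⁻¹ z) : (ρ (L.M δ)⁻¹ ^ h) z ≤ (ρ (L.D δ) ^ k) z := by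
  have h0' := ((spec_of_fill ρ hneg).bd (comm_slope L δ h k ρ)).lower 0 rfl
  have h1 := (h0'.up z hz).1
  rw [neg_zero, zpow_zero, one_mul, map_slope] at h1
  have h2 := (ρ (L.M δ)⁻¹ ^ h).monotone h1
  have h3 : Commute (ρ (L.M δ)⁻¹ ^ h) (ρ (L.D δ) ^ k) :=
    ((show Commute (ρ (L.D δ)) (ρ (L.M δ)⁻¹) from comm_ab L δ ρ).pow_pow k h).symm
  rw [← RelIso.mul_apply, ← mul_assoc, h3.eq, mul_assoc, mul_inv_cancel, mul_one] at h2
  exact h2

lemma slope_dn (hneg : Fill s 0 (L.D δ ^ k * L.M δ ^ h) (L.M δ)⁻¹ F₀)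
    {Ω : Type*} [CompleteLinearOrder Ω] (ρ : G →* (Ω ≃o Ω)) {z : Ω}
    (hz : ρ (L.M δ)⁻¹ z ≤ z) : (ρ (L.D δ) ^ k) z ≤ (ρ (L.M δ)⁻¹ ^ h) z := by
  have h0' := ((spec_of_fill ρ hneg).bd (comm_slope L δ h k ρ)).lower 0 rfl
  have h1 := (h0'.dn z hz).1
  rw [neg_zero, zpow_zero, one_mul, map_slope] at h1
  have h2 := (ρ (L.M δ)⁻¹ ^ h).monotone h1
  have h3 : Commute (ρ (L.M δ)⁻¹ ^ h) (ρ (L.D δ) ^ k) :=
    ((show Commute (ρ (L.D δ)) (ρ (L.M δ)⁻¹) from comm_ab L δ ρ).pow_pow k h).symm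
  rw [← RelIso.mul_apply, ← mul_assoc, h3.eq, mul_assoc, mul_inv_cancel, mul_one] at h2
  exact h2

/-- If the slope is larger than the bound, equality holds only at fixed points. -/
lemma slope_str (hneg : Fill s 0 (L.D δ ^ k * L.M δ ^ h) (L.M δ)⁻¹ F₀) (hs : s = true)
    {Ω : Type*} [CompleteLinearOrder Ω] (ρ : G →* (Ω ≃o Ω)) {z : Ω}
    (he : (ρ (L.D δ) ^ k) z = (ρ (L.M δ)⁻¹ ^ h) z) : ρ (L.M δ)⁻¹ z = z := by
  refine (spec_of_fill ρ hneg).str (comm_slope L δ h k ρ) hs 0 rfl z ?_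
  rw [neg_zero, zpow_zero, one_mul, map_slope]
  have h3 : Commute (ρ (L.M δ)⁻¹ ^ h)⁻¹ (ρ (L.D δ) ^ k) :=
    ((show Commute (ρ (L.D δ)) (ρ (L.M δ)⁻¹) from comm_ab L δ ρ).pow_pow k h).symm.inv_left
  rw [← h3.eq, RelIso.mul_apply, he, ← RelIso.mul_apply, inv_mul_cancel]
  rfl

/-- The action satisfies the rules. -/
lemma sys1 {Ω : Type*} [CompleteLinearOrder Ω] (ρ : G →* (Ω ≃o Ω))
    (hP : ∀ d, d ≠ δ → d ≠ Γ.flip δ → d ∈ P ∨ Γ.flip d ∈ P)
    (hpos : ∀ d ∈ P, Fill true 0 (L.M d) (L.D d) (F d))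
    (hk : 0 < k) (hkh : k ≤ h) (hneg : Fill s 0 (L.D δ ^ k * L.M δ ^ h) (L.M δ)⁻¹ F₀) :
    Sys Γ δ (lx L ρ) (ly L ρ) (ρ (L.D δ)) (ρ (L.M δ)⁻¹) 1 := by
  refine ⟨harm_of_fill L ρ hP fun d hd => spec_of_fill ρ (hpos d hd), X_D L ρ δ, ?_, ?_,
    Nat.one_pos, ?_, ?_⟩
  · intro z
    change ρ (L.y δ) (ρ (L.M δ)⁻¹ z) = ρ (L.y (Γ.flip δ)) z
    rw [← RelIso.mul_apply, ← map_mul, Lab.M, mul_inv_rev, inv_inv, mul_inv_cancel_left]
  · intro z
    rw [← RelIso.mul_apply, ← RelIso.mul_apply, comm_ab]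
  · intro z hz
    rw [pow_one]
    by_contra hn
    push Not at hn
    have h1 := pow_lt_pow_of_comm (comm_ab L δ ρ) hn hk
    have h2 := slope_up L δ hneg ρ hz
    have h3 : (ρ (L.M δ)⁻¹ ^ k) z ≤ (ρ (L.M δ)⁻¹ ^ h) z := by
      obtain ⟨i, rfl⟩ := Nat.exists_eq_add_of_le hkh
      rw [pow_add, RelIso.mul_apply]
      exact (ρ (L.M δ)⁻¹ ^ k).monotone (pow_ge hz i)
    exact absurd (h1.trans_le (h3.trans h2)) (lt_irrefl _)
  · intro z hz
    rw [pow_one]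
    by_contra hn
    push Not at hn
    have h1 := pow_lt_pow_of_comm (comm_ab L δ ρ).symm hn hk
    have h2 := slope_dn L δ hneg ρ hz
    have h3 : (ρ (L.M δ)⁻¹ ^ h) z ≤ (ρ (L.M δ)⁻¹ ^ k) z := by
      obtain ⟨i, rfl⟩ := Nat.exists_eq_add_of_le hkh
      rw [pow_add, RelIso.mul_apply]
      exact (ρ (L.M δ)⁻¹ ^ k).monotone (pow_le hz i)
    exact absurd (h1.trans_le (h2.trans h3)) (lt_irrefl _)

variable [Finite E]

/-- The main theorem. -/
theorem not_leftOrderable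
    (hP : ∀ d, d ≠ δ → d ≠ Γ.flip δ → d ∈ P ∨ Γ.flip d ∈ P)
    (hpos : ∀ d ∈ P, Fill true 0 (L.M d) (L.D d) (F d))
    (hk : 0 < k) (hkh : k ≤ h) (hneg : Fill s 0 (L.D δ ^ k * L.M δ ^ h) (L.M δ)⁻¹ F₀)
    (H : ∀ (Ω : Type u) [CompleteLinearOrder Ω] (ρ : G →* (Ω ≃o Ω)) (z : Ω),
      z ≤ ρ (L.D δ) z → ρ (L.D δ) z = z)
    (hgen : Subgroup.closure ((L.elts ∪ ⋃ d ∈ P, F d) ∪ F₀) = ⊤) :
    ¬ (Nontrivial G ∧ ∃ _ : LinearOrder G, ∀ f g h : G, g ≤ h → f * g ≤ f * h) := by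
  -- no element moves up under `D δ`, for any left order
  have noup : ∀ ho : LinearOrder G, (∀ f g h : G, g ≤ h → f * g ≤ f * h) →
      ∀ g : G, L.D δ * g ≤ g := by
    intro ho hmul g
    by_contra hn
    push Not at hn
    have h1 : ∀ u v : G, cutHom hmul u (LowerSet.Iic v) = LowerSet.Iic (u * v) := by
      intro u v
      ext w
      change w ∈ cutHom hmul u (LowerSet.Iic v) ↔ w ∈ LowerSet.Iic (u * v)
      rw [mem_cutHom]
      change u⁻¹ * w ≤ v ↔ w ≤ u * v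
      constructor
      · intro h
        have := hmul u _ _ h
        rwa [mul_inv_cancel_left] at this
      · intro h
        have := hmul u⁻¹ _ _ h
        rwa [inv_mul_cancel_left] at this
    have h2 : LowerSet.Iic g ≤ cutHom hmul (L.D δ) (LowerSet.Iic g) := by
      rw [h1]
      exact fun w (hw : w ≤ g) => (hw.trans hn.le : w ≤ L.D δ * g)
    have h3 := H _ (cutHom hmul) _ h2
    rw [h1] at h3
    have h4 : L.D δ * g ≤ g := h3.le (le_refl (L.D δ * g))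
    exact absurd hn (not_lt.mpr h4)
  rintro ⟨hnt, ⟨ho, hmul⟩⟩
  -- the element `D δ` is trivial
  have hD : L.D δ = 1 := by
    have h1 := noup ho hmul 1
    have h2 := noup (OrderDual.instLinearOrder G) (fun f g h hgh => hmul f h g hgh) 1
    rw [mul_one] at h1 h2
    exact le_antisymm h1 h2
  have hall : ∀ z : LowerSet G, ∀ g : G, cutHom hmul g z = z := by
    intro z g
    set ρ := cutHom hmul with hρ
    have S := sys1 L δ ρ hP hpos hk hkh hneg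
    have ha : ρ (L.D δ) z = z := by rw [hD, map_one]; rfl
    have hb : ρ (L.M δ)⁻¹ z = z := by
      refine le_antisymm ?_ (S.b_ge ha.ge)
      exact (S.b_le_a ha.ge).trans ha.le
    have hX : ∀ d, lx L ρ d z = lx L ρ δ z := by
      intro d
      obtain ⟨h1, h2, -, -⟩ := S.ext ha.ge d
      have h3 := S.ha z
      rw [ha] at h3
      exact le_antisymm h2 (h3 ▸ h1)
    have hY : ∀ d, ly L ρ d z = ly L ρ δ z := by
      intro d
      obtain ⟨-, -, h1, h2⟩ := S.ext ha.ge d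
      have h3 := S.hb z
      rw [hb] at h3
      exact le_antisymm (h3 ▸ h2) h1
    have hX1 : ∀ d, ρ (L.x d) z = z := by
      obtain ⟨c, hc⟩ := L.x_one
      intro d
      have h1 : lx L ρ d z = lx L ρ c z := (hX d).trans (hX c).symm
      change ρ (L.x d) z = ρ (L.x c) z at h1
      rw [h1, hc, map_one]
      rfl
    have hY1 : ∀ d, ρ (L.y d) z = z := by
      obtain ⟨c, hc⟩ := L.y_one
      intro d
      have h1 : ly L ρ d z = ly L ρ c z := (hY d).trans (hY c).symm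
      change ρ (L.y d) z = ρ (L.y c) z at h1
      rw [h1, hc, map_one]
      rfl
    have hDd : ∀ d, ρ (L.D d) z = z := by
      intro d
      rw [Lab.D, map_mul, map_inv, RelIso.mul_apply, hX1]
      exact inv_fix (hX1 _)
    have hMd : ∀ d, ρ (L.M d) z = z := by
      intro d
      rw [Lab.M, map_mul, map_inv, RelIso.mul_apply, hY1]
      exact inv_fix (hY1 _)
    have hg : g ∈ Subgroup.closure ((L.elts ∪ ⋃ d ∈ P, F d) ∪ F₀) := by
      rw [hgen]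
      trivial
    induction hg using Subgroup.closure_induction with
    | mem y hy =>
      rcases hy with ((⟨d, rfl⟩ | ⟨d, rfl⟩) | hy) | hy
      · exact hX1 d
      · exact hY1 d
      · obtain ⟨d, hd⟩ := Set.mem_iUnion.mp hy
        obtain ⟨hd1, hd2⟩ := Set.mem_iUnion.mp hd
        exact (spec_of_fill ρ (hpos d hd1)).fix z (hMd d) (hDd d) _ ⟨y, hd2, rfl⟩
      · refine (spec_of_fill ρ hneg).fix z ?_ hb _ ⟨y, hy, rfl⟩
        rw [map_slope, RelIso.mul_apply, inv_fix (pow_fix' h hb), pow_fix' k ha]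
    | one => rw [map_one]; rfl
    | mul a b _ _ ha hb => rw [map_mul, RelIso.mul_apply, hb, ha]
    | inv a _ ha => rw [map_inv]; exact inv_fix ha
  obtain ⟨x, y, hxy⟩ := exists_pair_ne G
  have key : ∀ x y : G, y ≤ x := by
    intro x y
    have h1 := hall (LowerSet.Iic x) (y * x⁻¹)
    have h2 : y ∈ LowerSet.Iic x := by
      rw [← h1, mem_cutHom]
      simp
    exact h2
  exact hxy (le_antisymm (key y x) (key x y))

end Main

end Pool.Agent.Helper61.TL
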