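import Mathlib
import Pool.Agent.Helper51.TW.Main
import Pool.Agent.Helper33.TG.Final

/-!
A way out of the start of the negative edge which is not a tile makes an inequality strict.
-/

set_option autoImplicit false

namespace Pool.Agent.Helper61.TL

open Pool.Agent.Helper42.Th Pool.Agent.Helper31.T3 Pool.Agent.Helper51.TW
open Pool.Agent.Helper74.TW (IsTile len Sqs tile_len)

section

variable {E : Type} {G : Type*} [Group G] {Γ : CMap E} {L : Lab G Γ} {δ : E}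
  {Ω : Type*} [CompleteLinearOrder Ω] {ρ : G →* (Ω ≃o Ω)} {a b : Ω ≃o Ω} {κ : ℕ} {z₀ : Ω}
  [Finite E] {h k : ℕ} {H A : E → ℕ}

omit [Finite E] in
lemma H_fan (T : Tiles L δ h k H A) (n : ℕ) : H ((Γ.rot ^ n) δ) = h := by
  induction n with
  | zero => simpa using T.H_hi
  | succ n ih => rw [pow_succ', Equiv.Perm.mul_apply, T.H_rot, ih]

omit [Finite E] in
lemma A_fan (T : Tiles L δ h k H A) (n : ℕ) :
    A (Γ.flip ((Γ.rot ^ (n + 1)) δ)) = A ((Γ.rot ^ n) δ) := by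
  rw [pow_succ', Equiv.Perm.mul_apply, T.A_rot]

omit [Finite E] in
/-- The darts from the highest vertex do not go to the left. -/
lemma fan_right (T : Tiles L δ h k H A) {n : ℕ} (hn : (Γ.rot ^ n) δ ≠ δ)
    (hh : 0 < h) : A (Γ.flip ((Γ.rot ^ n) δ)) ≤ A ((Γ.rot ^ n) δ) := by
  by_contra hlt
  push Not at hlt
  set d := (Γ.rot ^ n) δ with hd
  have h1 : H d = h := H_fan T n
  have h2 : d ≠ Γ.flip δ := by
    intro h3
    have := T.H_lo
    rw [← h3, h1] at this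
    omega
  obtain ⟨l, h3, h4, -⟩ := T.tile (Γ.flip d) (fun h5 => h2 (by rw [← h5, Γ.flip_flip]))
    (fun h5 => hn (Γ.flip.injective h5)) (by rw [Γ.flip_flip]; exact hlt)
  rw [Γ.flip_flip, h1] at h4
  have h5 := Nat.mul_pos h3 (Nat.sub_pos_of_lt hlt)
  have h6 := T.H_le (Γ.flip d)
  omega

/-- One of the inequalities at the highest vertex is strict. -/
theorem third_strict (S : Sys Γ δ (lx L ρ) (ly L ρ) a b κ) (h0 : z₀ < a z₀) (hh : 0 < h)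
    (hk : 0 < k) (T : Tiles L δ h k H A)
    (ht : Γ.Third δ {m | A (Γ.flip ((Γ.rot ^ m) δ)) ≠ A ((Γ.rot ^ m) δ)}) :
    (∃ e, IsTile Γ δ A e ∧ A (Γ.flip e) = 0 ∧ ∀ z, (fac S h0 (Γ.flip e))⁻¹ z < z) ∨
    (∃ e, IsTile Γ δ A e ∧ A e = k ∧ ∀ z, (bJ S h0)⁻¹ z < (fac S h0 e)⁻¹ z) ∨
    ∃ e e', IsTile Γ δ A e ∧ IsTile Γ δ A e' ∧ H e = h ∧ H e' = h ∧ A e = A (Γ.flip e') ∧
      ∀ z, (fac S h0 (Γ.flip e'))⁻¹ z < (fac S h0 e)⁻¹ z := by
  classical
  obtain ⟨m, hm, hmt, hnm, haw⟩ := ht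
  have hmA : A (Γ.flip ((Γ.rot ^ m) δ)) = A ((Γ.rot ^ m) δ) := by
    by_contra h1
    exact hmt h1
  -- the dart `m` has a positive flow
  have key : ∀ t, fac S h0 (Γ.flip ((Γ.rot ^ m) δ)) t < fac S h0 ((Γ.rot ^ m) δ) t := by
    intro t
    have hz := reg_lt h0 t.2
    rw [fac_lt, ← not_le]
    intro h2
    have h3 : t.1 ≤ Sys.N Γ (ly L ρ) ((Γ.rot ^ m) δ) t.1 := S.first_ge hz.le hm hnm
    have h4 : Sys.N Γ (ly L ρ) ((Γ.rot ^ m) δ) t.1 ≤ t.1 := Sys.N_le.mpr h2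
    exact hz.ne' (third_fix L ρ S (hnm m hm le_rfl) haw hz.le le_rfl (S.b_ge hz.le)
      (le_antisymm h4 h3))
  -- the period of `δ`
  have hper : ∃ n, 0 < n ∧ (Γ.rot ^ n) δ = δ := by
    obtain ⟨n, h1, h2⟩ := isOfFinOrder_iff_pow_eq_one.mp (isOfFinOrder_of_finite Γ.rot)
    exact ⟨n, h1, by rw [h2]; rfl⟩
  obtain ⟨hn0, hn1⟩ := Nat.find_spec hper
  have hn2 : ∀ l, 0 < l → l < Nat.find hper → (Γ.rot ^ l) δ ≠ δ := fun l h1 h2 h3 =>
    Nat.find_min hper h2 ⟨h1, h3⟩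
  set n := Nat.find hper with hn
  have hmn : m < n := by
    by_contra h1
    exact hnm n hn0 (by omega) hn1
  -- the last tile before `m`
  obtain ⟨i, hi, hi1, hi2⟩ : ∃ i < m, (i = 0 ∨ A (Γ.flip ((Γ.rot ^ i) δ)) < A ((Γ.rot ^ i) δ)) ∧
      A ((Γ.rot ^ i) δ) = A ((Γ.rot ^ m) δ) := by
    have h1 : ∀ l, 0 < l → l ≤ m → A (Γ.flip ((Γ.rot ^ l) δ)) = A ((Γ.rot ^ m) δ) →
        ∃ i < l, (i = 0 ∨ A (Γ.flip ((Γ.rot ^ i) δ)) < A ((Γ.rot ^ i) δ)) ∧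
          A ((Γ.rot ^ i) δ) = A ((Γ.rot ^ m) δ) := by
      intro l
      induction l with
      | zero => omega
      | succ l ih =>
        intro h1 h2 h3
        rw [A_fan T] at h3
        rcases Nat.eq_zero_or_pos l with rfl | hl
        · exact ⟨0, Nat.zero_lt_one, Or.inl rfl, h3⟩
        · rcases (fan_right T (hn2 l hl (by omega)) hh).lt_or_eq with h4 | h4
          · exact ⟨l, Nat.lt_succ_self l, Or.inr h4, h3⟩
          · obtain ⟨i, h5, h6, h7⟩ := ih hl (by omega) (h4.trans h3)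
            exact ⟨i, by omega, h6, h7⟩
    exact h1 m hm le_rfl hmA
  -- the next tile after `m`
  obtain ⟨l, hl, hln, hl1, hl2⟩ : ∃ l, m < l ∧ l ≤ n ∧
      (l = n ∨ A (Γ.flip ((Γ.rot ^ l) δ)) < A ((Γ.rot ^ l) δ)) ∧
      A (Γ.flip ((Γ.rot ^ l) δ)) = A ((Γ.rot ^ m) δ) := by
    have h1 : ∀ c l, l + c = n → m < l → A (Γ.flip ((Γ.rot ^ l) δ)) = A ((Γ.rot ^ m) δ) →
        ∃ l, m < l ∧ l ≤ n ∧
          (l = n ∨ A (Γ.flip ((Γ.rot ^ l) δ)) < A ((Γ.rot ^ l) δ)) ∧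
          A (Γ.flip ((Γ.rot ^ l) δ)) = A ((Γ.rot ^ m) δ) := by
      intro c
      induction c with
      | zero =>
        intro l h1 h2 h3
        exact ⟨l, h2, by omega, Or.inl (by omega), h3⟩
      | succ c ih =>
        intro l h1 h2 h3
        rcases (fan_right T (hn2 l (by omega) (by omega)) hh).lt_or_eq with h4 | h4
        · exact ⟨l, h2, by omega, Or.inr h4, h3⟩
        · refine ih (l + 1) (by omega) (by omega) ?_
          rw [A_fan T, ← h4, h3]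
    exact h1 (n - (m + 1)) (m + 1) (by omega) (Nat.lt_succ_self m) (A_fan T m)
  have hmono : ∀ {i j : ℕ}, i ≤ j → j < n → ∀ t,
      fac S h0 ((Γ.rot ^ i) δ) t ≤ fac S h0 ((Γ.rot ^ j) δ) t := by
    intro i j h1 h2 t
    rw [fac_le]
    exact S.first_mono (reg_lt h0 t.2).le h1 fun l h3 h4 => hn2 l h3 (by omega)
  have hflip : ∀ j t, fac S h0 (Γ.flip ((Γ.rot ^ (j + 1)) δ)) t = fac S h0 ((Γ.rot ^ j) δ) t := by
    intro j t
    rw [pow_succ', Equiv.Perm.mul_apply, fac_rot]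
  have hflip' : ∀ j, 0 < j → ∀ t, fac S h0 (Γ.flip ((Γ.rot ^ j) δ)) t =
      fac S h0 ((Γ.rot ^ (j - 1)) δ) t := by
    intro j hj t
    obtain ⟨j, rfl⟩ : ∃ i, j = i + 1 := ⟨j - 1, by omega⟩
    exact hflip j t
  -- the two bounds
  have hlow : ∀ t, fac S h0 ((Γ.rot ^ i) δ) t ≤ fac S h0 (Γ.flip ((Γ.rot ^ m) δ)) t := by
    intro t
    rw [hflip' m hm]
    exact hmono (by omega) (by omega) t
  have hupp : ∀ t, fac S h0 ((Γ.rot ^ m) δ) t ≤ fac S h0 (Γ.flip ((Γ.rot ^ l) δ)) t := by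
    intro t
    rw [hflip' l (by omega)]
    exact hmono (by omega) (by omega) t
  have hlt : ∀ t, fac S h0 ((Γ.rot ^ i) δ) t < fac S h0 (Γ.flip ((Γ.rot ^ l) δ)) t := fun t =>
    (hlow t).trans_lt ((key t).trans_le (hupp t))
  have hinv : ∀ z, (fac S h0 (Γ.flip ((Γ.rot ^ l) δ)))⁻¹ z < (fac S h0 ((Γ.rot ^ i) δ))⁻¹ z := by
    intro z
    rw [← (fac S h0 ((Γ.rot ^ i) δ)).lt_iff_lt, RelIso.apply_inv_self]
    have h1 := hlt ((fac S h0 (Γ.flip ((Γ.rot ^ l) δ)))⁻¹ z)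
    rwa [RelIso.apply_inv_self] at h1
  have htile : ∀ j, 0 < j → j < n → A (Γ.flip ((Γ.rot ^ j) δ)) < A ((Γ.rot ^ j) δ) →
      IsTile Γ δ A ((Γ.rot ^ j) δ) := by
    intro j h1 h2 h3
    refine ⟨hn2 j h1 h2, fun h4 => ?_, h3⟩
    have h5 := H_fan T j
    rw [h4, T.H_lo] at h5
    omega
  have hi0 : i = 0 ∨ (0 < i ∧ IsTile Γ δ A ((Γ.rot ^ i) δ)) := by
    rcases Nat.eq_zero_or_pos i with h1 | h1
    · exact Or.inl h1
    · rcases hi1 with h2 | h2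
      · exact Or.inl h2
      · exact Or.inr ⟨h1, htile i h1 (by omega) h2⟩
  have hln0 : l = n ∨ (l < n ∧ IsTile Γ δ A ((Γ.rot ^ l) δ)) := by
    rcases hln.lt_or_eq with h1 | h1
    · rcases hl1 with h2 | h2
      · exact Or.inl h2
      · exact Or.inr ⟨h1, htile l (by omega) h1 h2⟩
    · exact Or.inl h1
  rcases hi0 with rfl | ⟨hi0, hi3⟩
  · rcases hln0 with rfl | ⟨hl0, hl3⟩
    · exfalso
      rw [pow_zero, Equiv.Perm.one_apply, T.A_lo] at hi2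
      rw [hn1, T.A_hi, ← hi2] at hl2
      omega
    · refine Or.inl ⟨_, hl3, ?_, fun z => ?_⟩
      · rw [hl2, ← hi2, pow_zero, Equiv.Perm.one_apply, T.A_lo]
      · have h1 := hinv z
        rw [pow_zero, Equiv.Perm.one_apply, fac_self] at h1
        simpa using h1
  · rcases hln0 with rfl | ⟨hl0, hl3⟩
    · refine Or.inr (Or.inl ⟨_, hi3, ?_, fun z => ?_⟩)
      · rw [hi2, ← hl2, hn1, T.A_hi]
      · have h1 := hinv z
        rw [hn1, fac_flip] at h1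
        exact h1
    · exact Or.inr (Or.inr ⟨_, _, hi3, hl3, H_fan T i, H_fan T l, by rw [hi2, hl2], hinv⟩)

end

end Pool.Agent.Helper61.TL
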