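import Mathlib
import Pool.Agent.Helper61.TL.Slope
import Pool.Agent.Helper61.TL.Third
import Pool.Agent.Helper32.TI.Gcd

/-!
Diagrams with one negative crossing ball, the other edges of which dissect a rectangle: the
fundamental group is not left-orderable.
-/

set_option autoImplicit false

namespace Pool.Agent.Helper61.TL

open Pool.Agent.Helper42.Th Pool.Agent.Helper31.T3 Pool.Agent.Helper51.TW
open Pool.Agent.Helper74.TW (IsTile len Sqs tile_len)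

section

variable {E : Type} {G : Type*} [Group G] {Γ : CMap E} {L : Lab G Γ} {δ : E}
  {Ω : Type*} [CompleteLinearOrder Ω] {ρ : G →* (Ω ≃o Ω)} {a b : Ω ≃o Ω} {κ : ℕ} {z₀ : Ω}
  [Finite E] {h k : ℕ} {H A : E → ℕ}

omit [Finite E] in
lemma aJ_pow (h0 : z₀ < a z₀) (n : ℕ) (z : {z // Reg a z₀ z}) :
    ((aJ h0 ^ n) z).1 = (a ^ n) z.1 := by
  induction n with
  | zero => rfl
  | succ n ih => rw [pow_succ', pow_succ', RelIso.mul_apply, RelIso.mul_apply, ← ih]; rfl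

/-- The dissection makes the slope of the negative edge equal to the bound. -/
theorem slope_eq (S : Sys Γ δ (lx L ρ) (ly L ρ) a b κ) (h0 : z₀ < a z₀) (hh : 0 < h)
    (hk : 0 < k) (T : Tiles L δ h k H A) (hsum : total Γ δ H A + 2 = h + k + Nat.gcd h k)
    (hle : ∀ z, z ≤ a z → (b ^ (h / Nat.gcd h k)) z ≤ (a ^ (k / Nat.gcd h k)) z) :
    (a ^ (k / Nat.gcd h k)) z₀ = (b ^ (h / Nat.gcd h k)) z₀ ∧
      ¬ Γ.Third δ {m | A (Γ.flip ((Γ.rot ^ m) δ)) ≠ A ((Γ.rot ^ m) δ)} := by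
  obtain ⟨U, hU, hU'⟩ := exists_tiling S h0 hh hk T
  set d := Nat.gcd h k with hd
  have hle' : ∀ z, ((aJ h0)⁻¹ ^ (k / d)) z ≤ ((bJ S h0)⁻¹ ^ (h / d)) z := by
    intro z
    rw [inv_pow, inv_pow, ← (bJ S h0 ^ (h / d)).le_iff_le, RelIso.apply_inv_self]
    have h1 : (bJ S h0 ^ (h / d)) (((aJ h0 ^ (k / d))⁻¹) z) ≤
        (aJ h0 ^ (k / d)) (((aJ h0 ^ (k / d))⁻¹) z) := by
      change (_ : {z // Reg a z₀ z}).1 ≤ (_ : {z // Reg a z₀ z}).1
      rw [bJ_pow, aJ_pow]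
      exact hle _ (reg_lt h0 (((aJ h0 ^ (k / d))⁻¹) z).2).le
    rwa [RelIso.apply_inv_self] at h1
  obtain ⟨h1, h2, h3, h4, -⟩ := U.rect_gcd_eq hk hh (by rw [hU, hsum]) (aJ_inv_comm S h0) hle'
  refine ⟨?_, fun ht => ?_⟩
  · set y : {z // Reg a z₀ z} := (aJ h0 ^ (k / d)) ⟨z₀, reg_self a z₀⟩ with hy
    have h5 := h1 y
    rw [inv_pow, inv_pow, hy, RelIso.inv_apply_self] at h5
    have h6 := congrArg (bJ S h0 ^ (h / d)) h5
    rw [RelIso.apply_inv_self] at h6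
    have h7 := congrArg Subtype.val h6
    rw [bJ_pow, aJ_pow] at h7
    exact h7.symm
  · have z : {z // Reg a z₀ z} := ⟨z₀, reg_self a z₀⟩
    rcases third_strict S h0 hh hk T ht with ⟨e, h5, h6, h7⟩ | ⟨e, h5, h6, h7⟩ |
        ⟨e, e', h5, h6, h7, h8, h9, h10⟩
    · obtain ⟨hl, -, -⟩ := tile_len T h5
      have hu := hU' ⟨⟨e, h5⟩, ⟨0, hl⟩⟩
      have h8 := h2 ⟨⟨e, h5⟩, ⟨0, hl⟩⟩ (by rw [hu.1]; exact h6) z
      rw [hu.2.2.2.1] at h8
      exact (h7 z).ne h8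
    · obtain ⟨hl, -, -⟩ := tile_len T h5
      have hu := hU' ⟨⟨e, h5⟩, ⟨0, hl⟩⟩
      have h8 := h3 ⟨⟨e, h5⟩, ⟨0, hl⟩⟩ (by
        rw [hu.1, hu.2.2.1]
        change A (Γ.flip e) + (A e - A (Γ.flip e)) = k
        have := h5.2.2
        omega) z
      rw [hu.2.2.2.2.1] at h8
      exact (h7 z).ne h8
    · obtain ⟨hl, hl2, -⟩ := tile_len T h5
      obtain ⟨hl', hl2', -⟩ := tile_len T h6
      have hlt : len Γ H A e - 1 < len Γ H A e := by omega
      have hlt' : len Γ H A e' - 1 < len Γ H A e' := by omega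
      have hu := hU' ⟨⟨e, h5⟩, ⟨len Γ H A e - 1, hlt⟩⟩
      have hu' := hU' ⟨⟨e', h6⟩, ⟨len Γ H A e' - 1, hlt'⟩⟩
      have hw := h5.2.2
      have hw' := h6.2.2
      have e1 : (len Γ H A e - 1 + 1) * (A e - A (Γ.flip e)) =
          len Γ H A e * (A e - A (Γ.flip e)) := by
        congr 1
        omega
      have e2 : (len Γ H A e' - 1 + 1) * (A e' - A (Γ.flip e')) =
          len Γ H A e' * (A e' - A (Γ.flip e')) := by
        congr 1
        omega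
      rw [add_mul, one_mul] at e1 e2
      have h11 := h4 ⟨⟨e, h5⟩, ⟨len Γ H A e - 1, hlt⟩⟩
        ⟨⟨e', h6⟩, ⟨len Γ H A e' - 1, hlt'⟩⟩ (h - 1)
        (by
          rw [hu.2.1]
          change H (Γ.flip e) + (len Γ H A e - 1) * (A e - A (Γ.flip e)) ≤ h - 1
          omega)
        (by
          rw [hu.2.1, hu.2.2.1]
          change h - 1 < H (Γ.flip e) + (len Γ H A e - 1) * (A e - A (Γ.flip e)) +
            (A e - A (Γ.flip e))
          omega)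
        (by
          rw [hu'.2.1]
          change H (Γ.flip e') + (len Γ H A e' - 1) * (A e' - A (Γ.flip e')) ≤ h - 1
          omega)
        (by
          rw [hu'.2.1, hu'.2.2.1]
          change h - 1 < H (Γ.flip e') + (len Γ H A e' - 1) * (A e' - A (Γ.flip e')) +
            (A e' - A (Γ.flip e'))
          omega)
        (by
          rw [hu.1, hu.2.2.1, hu'.1]
          change A (Γ.flip e) + (A e - A (Γ.flip e)) = A (Γ.flip e')
          omega) z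
      rw [hu'.2.2.2.1, hu.2.2.2.2.1] at h11
      exact (h10 z).ne h11

end

universe u

/-- The main theorem. -/
theorem main {E : Type} [Finite E] {G : Type u} [Group G] (Γ : CMap E) (L : Lab G Γ) (δ : E)
    (P : Set E) (F : E → Set G) (F₀ : Set G) (h k : ℕ) (H A : E → ℕ) (s : Bool)
    (hk : 0 < k) (hkh : k ≤ h)
    (hP : ∀ d, d ≠ δ → d ≠ Γ.flip δ → d ∈ P ∨ Γ.flip d ∈ P)
    (hpos : ∀ d ∈ P, Fill true 0 (L.M d) (L.D d) (F d))
    (hneg : Fill s 0 (L.D δ ^ (k / Nat.gcd h k) * L.M δ ^ (h / Nat.gcd h k)) (L.M δ)⁻¹ F₀)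
    (T : Tiles L δ h k H A) (hsum : total Γ δ H A + 2 = h + k + Nat.gcd h k)
    (hs : s = true ∨ Γ.Third δ {m | A (Γ.flip ((Γ.rot ^ m) δ)) ≠ A ((Γ.rot ^ m) δ)})
    (hgen : Subgroup.closure ((L.elts ∪ ⋃ d ∈ P, F d) ∪ F₀) = ⊤) :
    ¬ (Nontrivial G ∧ ∃ _ : LinearOrder G, ∀ f g h : G, g ≤ h → f * g ≤ f * h) := by
  have hd : 0 < Nat.gcd h k := Nat.gcd_pos_of_pos_right h hk
  have hk' : 0 < k / Nat.gcd h k := Nat.div_pos (Nat.le_of_dvd hk (Nat.gcd_dvd_right h k)) hd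
  have hkh' : k / Nat.gcd h k ≤ h / Nat.gcd h k := Nat.div_le_div_right hkh
  refine not_leftOrderable L δ hP hpos hk' hkh' hneg ?_ hgen
  intro Ω _ ρ z hz
  by_contra hne
  have h0 : z < ρ (L.D δ) z := lt_of_le_of_ne hz (Ne.symm hne)
  have S := sys1 L δ ρ hP hpos hk' hkh' hneg
  obtain ⟨h1, h2⟩ := slope_eq S h0 (by omega) hk T hsum fun w hw =>
    slope_up L δ hneg ρ (S.b_ge hw)
  rcases hs with hs | hs
  · have h3 := slope_str L δ hneg hs ρ h1
    have h4 : (ρ (L.M δ)⁻¹ ^ (h / Nat.gcd h k)) z = z := Pool.Agent.Helper71.Rot.pow_fix' _ h3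
    have h5 : ρ (L.D δ) z ≤ (ρ (L.D δ) ^ (k / Nat.gcd h k)) z := by
      obtain ⟨n, hn⟩ : ∃ n, k / Nat.gcd h k = n + 1 := ⟨k / Nat.gcd h k - 1, by omega⟩
      rw [hn, pow_succ', RelIso.mul_apply]
      exact (ρ (L.D δ)).monotone (Pool.Agent.Helper31.OrderAct.pow_ge h0.le n)
    rw [h1, h4] at h5
    exact absurd h0 (not_lt.mpr h5)
  · exact h2 hs

end Pool.Agent.Helper61.TL
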