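import Mathlib
import Pool.Agent.Helper61.TL.Tile

/-!
Dissections of a `k × h` rectangle into squares, the sum of the sides of which is `h + k - 1`.
-/

set_option autoImplicit false

namespace Pool.Agent.Helper61.TL

/-- A set of residues modulo `n` which is closed under the addition of a unit. -/
lemma all_of_step {n h : ℕ} (hn : 1 < n) (hc : Nat.Coprime h n) {L : ℕ → Prop}
    (hL : ∀ s < n, L s ↔ L ((s + h) % n)) {s r : ℕ} (hs : s < n) (hr : r < n) : L s ↔ L r := by
  have key : ∀ t, L s ↔ L ((s + t * h) % n) := by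
    intro t
    induction t with
    | zero => rw [Nat.zero_mul, Nat.add_zero, Nat.mod_eq_of_lt hs]
    | succ t ih =>
      rw [ih, hL _ (Nat.mod_lt _ (by omega)), Nat.mod_add_mod]
      rw [show s + t * h + h = s + (t + 1) * h by ring]
  obtain ⟨m, -, hm⟩ := Nat.exists_mul_mod_eq_one_of_coprime hc hn
  have h1 := key (m * (r + n - s))
  rw [h1]
  have h2 : (s + m * (r + n - s) * h) % n = r := by
    have h3 : m * (r + n - s) * h = (h * m) * (r + n - s) := by ring
    have h4 : (s + m * (r + n - s) * h) % n = (s + 1 * (r + n - s)) % n := by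
      rw [h3]
      apply Nat.ModEq.add_left
      apply Nat.ModEq.mul_right
      change h * m % n = 1 % n
      rw [hm, Nat.mod_eq_of_lt hn]
    rw [h4, Nat.one_mul, show s + (r + n - s) = r + n by omega, Nat.add_mod_right,
      Nat.mod_eq_of_lt hr]
  rw [h2]

namespace Tiling

variable {X : Type*} [LinearOrder X] {h k : ℕ} {A M : X ≃o X} {ι : Type*} [Fintype ι]
  (T : Tiling X h k A M ι)
include T

/-- The labels can be chosen so that all cells are ties. -/
lemma exists_ties (hk : 0 < k) (hh : 0 < h) (hco : Nat.Coprime h k)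
    (hsum : ∑ e, T.sz e + 1 = h + k) (z : X) :
    ∃ x y : ℕ → X, y 0 = z ∧
      ∀ e c, c < T.sz e → T.lo e (x (T.al e + c)) = T.lt e (y (T.yt e + c)) := by
  classical
  have hcol : ∀ c : (Σ e : ι, Fin (T.sz e)), T.al c.1 + c.2 < k := fun c => by
    have := T.colb c.1
    omega
  have hrow : ∀ c : (Σ e : ι, Fin (T.sz e)), T.yt c.1 + c.2 < h := fun c => by
    have := T.rowb c.1
    omega
  have hconn : ∀ W : Set (Fin k ⊕ Fin h), W.Nonempty →
      (∀ c : (Σ e : ι, Fin (T.sz e)), (Sum.inr ⟨T.yt c.1 + c.2, hrow c⟩ : Fin k ⊕ Fin h) ∈ W ↔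
        (Sum.inl ⟨T.al c.1 + c.2, hcol c⟩ : Fin k ⊕ Fin h) ∈ W) → W = Set.univ := by
    intro W hne hW
    have hends := fun s hs => T.ends_mem
      (fun i => ∃ hi : i < k, (Sum.inl ⟨i, hi⟩ : Fin k ⊕ Fin h) ∈ W)
      (fun j => ∃ hj : j < h, (Sum.inr ⟨j, hj⟩ : Fin k ⊕ Fin h) ∈ W) (fun e c hc => by
        have h1 := hcol ⟨e, ⟨c, hc⟩⟩
        have h2 := hrow ⟨e, ⟨c, hc⟩⟩
        simp only at h1 h2
        have h3 := hW ⟨e, ⟨c, hc⟩⟩
        simp only at h3
        constructor
        · rintro ⟨_, h4⟩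
          exact ⟨h2, h3.mpr h4⟩
        · rintro ⟨_, h4⟩
          exact ⟨h1, h3.mp h4⟩) hk hh (s := s) hs
    set P : ℕ → Prop := fun i => ∃ hi : i < k, (Sum.inl ⟨i, hi⟩ : Fin k ⊕ Fin h) ∈ W with hP
    set Q : ℕ → Prop := fun j => ∃ hj : j < h, (Sum.inr ⟨j, hj⟩ : Fin k ⊕ Fin h) ∈ W with hQ
    have hL : ∀ s < h + k, (if s < h then Q s else P (s - h)) ↔
        (if (s + h) % (h + k) < h then Q ((s + h) % (h + k)) else
          P ((s + h) % (h + k) - h)) := by
      intro s hs
      rw [← hends s hs]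
      rcases Nat.lt_or_ge s k with h1 | h1
      · have h2 : (s + h) % (h + k) = s + h := Nat.mod_eq_of_lt (by omega)
        rw [if_pos h1, h2, if_neg (by omega), Nat.add_sub_cancel]
      · have h2 : (s + h) % (h + k) = s - k := by
          rw [show s + h = (s - k) + (h + k) by omega, Nat.add_mod_right,
            Nat.mod_eq_of_lt (by omega)]
        rw [if_neg (by omega), h2, if_pos (by omega)]
    -- every label is in the set
    have hidx : ∀ v : Fin k ⊕ Fin h, ∃ s < h + k,
        ((if s < h then Q s else P (s - h)) ↔ v ∈ W) := by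
      rintro (⟨i, hi⟩ | ⟨j, hj⟩)
      · refine ⟨i + h, by omega, ?_⟩
        rw [if_neg (by omega), Nat.add_sub_cancel]
        exact ⟨fun ⟨_, h⟩ => h, fun h => ⟨hi, h⟩⟩
      · refine ⟨j, by omega, ?_⟩
        rw [if_pos hj]
        exact ⟨fun ⟨_, h⟩ => h, fun h => ⟨hj, h⟩⟩
    obtain ⟨v, hv⟩ := hne
    obtain ⟨s, hs, h1⟩ := hidx v
    ext u
    obtain ⟨r, hr, h2⟩ := hidx u
    refine ⟨fun _ => trivial, fun _ => ?_⟩
    have h3 := all_of_step (n := h + k) (h := h) (by omega) (by simpa using hco)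
      (L := fun s => if s < h then Q s else P (s - h)) hL hs hr
    exact h2.mp (h3.mp (h1.mpr hv))
  have hcard : Fintype.card (Σ e : ι, Fin (T.sz e)) + 1 = Fintype.card (Fin k ⊕ Fin h) := by
    rw [Fintype.card_sigma, Fintype.card_sum, Fintype.card_fin, Fintype.card_fin]
    simp only [Fintype.card_fin]
    omega
  obtain ⟨w, hw, ht⟩ := exists_labels (V := Fin k ⊕ Fin h) (C := Σ e : ι, Fin (T.sz e)) (X := X)
    (fun c => Sum.inr ⟨T.yt c.1 + c.2, hrow c⟩) (fun c => Sum.inl ⟨T.al c.1 + c.2, hcol c⟩)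
    (fun c => (T.lt c.1).toEquiv.trans (T.lo c.1).toEquiv.symm) hconn hcard (Sum.inr ⟨0, hh⟩) z
  refine ⟨fun i => if hi : i < k then w (Sum.inl ⟨i, hi⟩) else z,
    fun j => if hj : j < h then w (Sum.inr ⟨j, hj⟩) else z, ?_, ?_⟩
  · simp only [hh, dif_pos]
    exact hw
  · intro e c hc
    have h1 := hcol ⟨e, ⟨c, hc⟩⟩
    have h2 := hrow ⟨e, ⟨c, hc⟩⟩
    simp only at h1 h2
    simp only [h1, h2, dif_pos]
    have h3 := ht ⟨e, ⟨c, hc⟩⟩
    simp only at h3
    rw [h3]
    exact (T.lo e).apply_symm_apply _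

/-- The main inequality. -/
theorem rect (hk : 0 < k) (hh : 0 < h) (hco : Nat.Coprime h k)
    (hsum : ∑ e, T.sz e + 1 = h + k) (comm : ∀ z, A (M z) = M (A z)) (z : X) :
    (M ^ h) z ≤ (A ^ k) z := by
  obtain ⟨x, y, hy, tie⟩ := T.exists_ties hk hh hco hsum z
  have hpow : ∀ (n : ℕ) (w : X), A ((M ^ n) w) = (M ^ n) (A w) := by
    intro n
    induction n with
    | zero => intro w; simp
    | succ n ih =>
      intro w
      rw [pow_succ, RelIso.mul_apply, RelIso.mul_apply, ih, comm]
  set v : ℕ → X := fun s => if s < h then y s else A (x (s - h)) with hv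
  have hends := fun s hs => T.ends x y tie hk hh (s := s) hs
  have key : ∀ t, ∃ α β s : ℕ, α + β = t ∧ s < h + k ∧ s + k * β = h * α ∧
      (M ^ β) (v s) ≤ (A ^ α) (v 0) := by
    intro t
    induction t with
    | zero => exact ⟨0, 0, 0, rfl, by omega, by simp, by simp⟩
    | succ t ih =>
      obtain ⟨α, β, s, h1, h2, h3, h4⟩ := ih
      have h5 := hends s h2
      rcases Nat.lt_or_ge s k with h6 | h6
      · refine ⟨α + 1, β, s + h, by omega, by omega, by rw [Nat.mul_add, ← h3]; omega, ?_⟩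
        rw [if_pos h6] at h5
        have h7 : v (s + h) = A (x s) := by
          simp only [hv]
          rw [if_neg (by omega), Nat.add_sub_cancel]
        rw [h7, ← hpow, pow_succ', RelIso.mul_apply]
        exact A.monotone (((M ^ β).monotone h5).trans h4)
      · refine ⟨α, β + 1, s - k, by omega, by omega, by rw [← h3, Nat.mul_add]; omega, ?_⟩
        rw [if_neg (by omega)] at h5
        have h7 : v (s - k) = y (s - k) := by
          simp only [hv]
          rw [if_pos (by omega)]
        rw [h7, pow_succ, RelIso.mul_apply]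
        exact ((M ^ β).monotone h5).trans h4
  obtain ⟨α, β, s, h1, h2, h3, h4⟩ := key (h + k)
  have h5 : (h + k) * β + s = (h + k) * h := by
    have h6 : α = h + k - β := by omega
    have h7 : h * α + h * β = h * (h + k) := by rw [← Nat.mul_add, h1]
    rw [← h3] at h7
    linarith [h7, Nat.mul_comm (h + k) h, Nat.add_mul h k β]
  have h6 : β = h := by
    rcases Nat.lt_trichotomy β h with h7 | h7 | h7
    · have h8 : (h + k) * (β + 1) ≤ (h + k) * h := Nat.mul_le_mul_left _ h7
      rw [Nat.mul_add] at h8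
      omega
    · exact h7
    · have h8 : (h + k) * (h + 1) ≤ (h + k) * β := Nat.mul_le_mul_left _ h7
      rw [Nat.mul_add] at h8
      omega
  subst h6
  have h7 : s = 0 := by omega
  have h8 : α = k := by omega
  subst h7 h8
  have h9 : v 0 = z := by
    simp only [hv]
    rw [if_pos hh, hy]
  rw [h9] at h4
  exact h4

end Tiling

end Pool.Agent.Helper61.TL
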